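import Pool.Agent.H93.AR.Defs

/-! Integrals over caps of the sphere (module SBL). -/

set_option autoImplicit false

open MeasureTheory Set Pool.Agent.H93.AR Pool.Agent.H83.LS Pool.Agent.H54.LS
open scoped ENNReal NNReal

namespace Pool.Agent.H59.BR

/-- the radial measure of an interval, as an integral -/
theorem nu_apply (n : ℕ) (a b : ℝ) :
    nu n {t : Ioi (0 : ℝ) | a ≤ (t : ℝ) ∧ (t : ℝ) ≤ b} =
      ∫⁻ t in {t : Ioi (0 : ℝ) | a ≤ (t : ℝ) ∧ (t : ℝ) ≤ b}, ENNReal.ofReal ((t : ℝ) ^ (n - 1))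
        ∂(Measure.comap (Subtype.val : Ioi (0 : ℝ) → ℝ) volume) := by
  unfold nu Measure.volumeIoiPow
  rw [withDensity_apply _ (by measurability)]

theorem comap_apply (a b : ℝ) (ha : 0 < a) :
    (Measure.comap (Subtype.val : Ioi (0 : ℝ) → ℝ) volume)
      {t : Ioi (0 : ℝ) | a ≤ (t : ℝ) ∧ (t : ℝ) ≤ b} = ENNReal.ofReal (b - a) := by
  rw [comap_subtype_coe_apply measurableSet_Ioi]
  have : (Subtype.val : Ioi (0 : ℝ) → ℝ) '' {t : Ioi (0 : ℝ) | a ≤ (t : ℝ) ∧ (t : ℝ) ≤ b} =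
      Icc a b := by
    ext x
    constructor
    · rintro ⟨t, ht, rfl⟩
      exact ht
    · intro hx
      exact ⟨⟨x, lt_of_lt_of_le ha hx.1⟩, hx, rfl⟩
  rw [this, Real.volume_Icc]

theorem mset (a b : ℝ) : MeasurableSet {t : Ioi (0 : ℝ) | a ≤ (t : ℝ) ∧ (t : ℝ) ≤ b} := by
  measurability

theorem nu_ge (n : ℕ) (h : ℝ) :
    ENNReal.ofReal h ≤ nu n {t : Ioi (0 : ℝ) | 1 ≤ (t : ℝ) ∧ (t : ℝ) ≤ 1 + h} := by
  rw [nu_apply]
  calc ENNReal.ofReal h = ENNReal.ofReal ((1 + h) - 1) := by congr 1; ring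
    _ = (Measure.comap (Subtype.val : Ioi (0 : ℝ) → ℝ) volume)
        {t : Ioi (0 : ℝ) | 1 ≤ (t : ℝ) ∧ (t : ℝ) ≤ 1 + h} := (comap_apply 1 (1 + h) one_pos).symm
    _ = ∫⁻ t in {t : Ioi (0 : ℝ) | 1 ≤ (t : ℝ) ∧ (t : ℝ) ≤ 1 + h}, 1
        ∂(Measure.comap (Subtype.val : Ioi (0 : ℝ) → ℝ) volume) := by
      rw [setLIntegral_one]
    _ ≤ _ := by
      refine setLIntegral_mono' (mset _ _) fun t ht => ?_
      rw [ENNReal.one_le_ofReal]
      exact one_le_pow₀ ht.1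

theorem nu_le (n : ℕ) (r : ℝ) (hr1 : r < 1) :
    nu n {t : Ioi (0 : ℝ) | 1 - r ≤ (t : ℝ) ∧ (t : ℝ) ≤ 1 + r} ≤
      ENNReal.ofReal (2 * r * 2 ^ (n - 1)) := by
  rw [nu_apply]
  calc _ ≤ ∫⁻ t in {t : Ioi (0 : ℝ) | 1 - r ≤ (t : ℝ) ∧ (t : ℝ) ≤ 1 + r},
          ENNReal.ofReal (2 ^ (n - 1))
          ∂(Measure.comap (Subtype.val : Ioi (0 : ℝ) → ℝ) volume) := by
        refine setLIntegral_mono' (mset _ _) fun t ht => ?_
        refine ENNReal.ofReal_le_ofReal (pow_le_pow_left₀ ?_ ?_ _)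
        · exact (le_of_lt t.2)
        · have := ht.2
          linarith
    _ = _ := by
        rw [setLIntegral_const, comap_apply _ _ (by linarith),
          ← ENNReal.ofReal_mul (by positivity)]
        congr 1
        ring

theorem cont_f (n : ℕ) (ρ : ℝ) (u : EE n) (hρ : 1 ≤ ρ) :
    Continuous fun y : EE n => ((1 + ρ * ‖u - y‖) ^ (n + 1))⁻¹ := by
  refine Continuous.inv₀ (by fun_prop) fun y => ?_
  have : 0 < 1 + ρ * ‖u - y‖ := by
    have := mul_nonneg (zero_le_one.trans hρ) (norm_nonneg (u - y))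
    linarith
  positivity

/-- the full integral -/
theorem full_int (n : ℕ) : ∃ C : ℝ, 0 < C ∧ ∀ (ρ : ℝ) (u : EE n), 1 ≤ ρ →
    ∫⁻ y : EE n, ENNReal.ofReal (((1 + ρ * ‖u - y‖) ^ (n + 1))⁻¹) ≤
      ENNReal.ofReal (C * (ρ ^ n)⁻¹) := by
  have hint : Integrable (fun y : EE n => ((1 + ‖y‖) ^ (n + 1))⁻¹) := by
    have h1 := integrable_one_add_norm (E := EE n) (μ := volume) (r := (n : ℝ) + 1)
      (by rw [finrank_euclideanSpace_fin]; linarith)
    refine h1.congr (Filter.Eventually.of_forall fun y => ?_)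
    show (1 + ‖y‖) ^ (-((n : ℝ) + 1)) = ((1 + ‖y‖) ^ (n + 1))⁻¹
    rw [Real.rpow_neg (by positivity)]
    congr 1
    exact_mod_cast Real.rpow_natCast (1 + ‖y‖) (n + 1)
  refine ⟨(∫ y : EE n, ((1 + ‖y‖) ^ (n + 1))⁻¹) + 1, ?_, fun ρ u hρ => ?_⟩
  · have : 0 ≤ ∫ y : EE n, ((1 + ‖y‖) ^ (n + 1))⁻¹ := integral_nonneg fun y => by positivity
    linarith
  have hρ0 : 0 < ρ := by linarith
  have e1 : ∫⁻ y : EE n, ENNReal.ofReal (((1 + ρ * ‖u - y‖) ^ (n + 1))⁻¹) =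
      ∫⁻ y : EE n, ENNReal.ofReal (((1 + ‖ρ • y‖) ^ (n + 1))⁻¹) := by
    rw [← lintegral_sub_left_eq_self
      (fun y : EE n => ENNReal.ofReal (((1 + ‖ρ • y‖) ^ (n + 1))⁻¹)) u]
    refine lintegral_congr fun y => ?_
    rw [norm_smul, Real.norm_of_nonneg hρ0.le]
  have e2 : ∫⁻ y : EE n, ENNReal.ofReal (((1 + ‖ρ • y‖) ^ (n + 1))⁻¹) =
      ENNReal.ofReal (∫ y : EE n, ((1 + ‖ρ • y‖) ^ (n + 1))⁻¹) := by
    rw [ofReal_integral_eq_lintegral_ofReal]
    · exact hint.comp_smul hρ0.ne'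
    · exact Filter.Eventually.of_forall fun y => by positivity
  rw [e1, e2]
  refine ENNReal.ofReal_le_ofReal ?_
  rw [Measure.integral_comp_smul (volume : Measure (EE n))
    (fun y : EE n => ((1 + ‖y‖) ^ (n + 1))⁻¹) ρ, finrank_euclideanSpace_fin, smul_eq_mul,
    abs_of_nonneg (by positivity), mul_comm]
  refine mul_le_mul_of_nonneg_right (by linarith) (by positivity)

theorem part1 (n : ℕ) (hn : 1 ≤ n) : ∃ C : ℝ, 0 < C ∧ ∀ (ρ : ℝ) (u : EE n), 1 ≤ ρ → ‖u‖ = 1 →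
    ∫⁻ w : Sp n, ENNReal.ofReal (((1 + ρ * ‖u - w‖) ^ (n + 1))⁻¹) ∂(sg n) ≤
      ENNReal.ofReal (C * (ρ ^ (n - 1))⁻¹) := by
  obtain ⟨C, hC, hfull⟩ := full_int n
  refine ⟨2 ^ (n + 1) * C, by positivity, fun ρ u hρ hu => ?_⟩
  have hρ0 : 0 < ρ := by linarith
  set T : Set (Ioi (0 : ℝ)) := {t : Ioi (0 : ℝ) | 1 ≤ (t : ℝ) ∧ (t : ℝ) ≤ 1 + 1 / ρ} with hT
  have hTm : MeasurableSet T := mset _ _
  set F : Sp n → ℝ≥0∞ := fun w => ENNReal.ofReal (((1 + ρ * ‖u - w‖) ^ (n + 1))⁻¹) with hF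
  set G : EE n → ℝ≥0∞ := fun y => ENNReal.ofReal (2 ^ (n + 1)) *
    ENNReal.ofReal (((1 + ρ * ‖u - y‖) ^ (n + 1))⁻¹) with hG
  have hFm : Measurable F :=
    ENNReal.measurable_ofReal.comp ((cont_f n ρ u hρ).measurable.comp measurable_subtype_coe)
  have hGm : Measurable G :=
    (ENNReal.measurable_ofReal.comp (cont_f n ρ u hρ).measurable).const_mul _
  have hFG : ∀ (w : Sp n) (t : Ioi (0 : ℝ)), t ∈ T → F w ≤ G ((t : ℝ) • (w : EE n)) := by
    intro w t ht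
    rw [hF, hG]
    simp only
    rw [← ENNReal.ofReal_mul (by positivity)]
    refine ENNReal.ofReal_le_ofReal ?_
    have hw : ‖(w : EE n)‖ = 1 := by simp
    have h1 : ‖u - (t : ℝ) • (w : EE n)‖ ≤ ‖u - w‖ + 1 / ρ := by
      calc ‖u - (t : ℝ) • (w : EE n)‖ = ‖(u - w) + (1 - (t : ℝ)) • (w : EE n)‖ := by
            congr 1
            rw [sub_smul, one_smul]
            abel
        _ ≤ ‖u - w‖ + ‖(1 - (t : ℝ)) • (w : EE n)‖ := norm_add_le _ _
        _ ≤ ‖u - w‖ + 1 / ρ := by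
            rw [norm_smul, hw, mul_one, Real.norm_eq_abs, abs_sub_comm, abs_of_nonneg]
            · have := ht.2
              linarith
            · have := ht.1
              linarith
    have h2 : 1 + ρ * ‖u - (t : ℝ) • (w : EE n)‖ ≤ 2 * (1 + ρ * ‖u - w‖) := by
      have h3 := mul_le_mul_of_nonneg_left h1 hρ0.le
      have h4 : ρ * (‖u - w‖ + 1 / ρ) = ρ * ‖u - w‖ + 1 := by
        field_simp
      have h5 : 0 ≤ ρ * ‖u - w‖ := by positivity
      linarith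
    have h6 : 0 < 1 + ρ * ‖u - (t : ℝ) • (w : EE n)‖ := by positivity
    have h7 : 0 < 1 + ρ * ‖u - (w : EE n)‖ := by positivity
    have h8 : (1 + ρ * ‖u - (t : ℝ) • (w : EE n)‖) ^ (n + 1) ≤
        2 ^ (n + 1) * (1 + ρ * ‖u - (w : EE n)‖) ^ (n + 1) := by
      rw [← mul_pow]
      exact pow_le_pow_left₀ h6.le h2 _
    rw [← div_eq_mul_inv, le_div_iff₀ (by positivity), inv_mul_le_iff₀ (by positivity)]
    exact h8.trans (le_of_eq (mul_comm _ _))
  have key : (∫⁻ w, F w ∂(sg n)) * ENNReal.ofReal (1 / ρ) ≤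
      ENNReal.ofReal (2 ^ (n + 1) * (C * (ρ ^ n)⁻¹)) := by
    calc (∫⁻ w, F w ∂(sg n)) * ENNReal.ofReal (1 / ρ)
        ≤ (∫⁻ w, F w ∂(sg n)) * nu n T := by
          gcongr
          exact nu_ge n (1 / ρ)
      _ = ∫⁻ w, F w * nu n T ∂(sg n) := by
          rw [lintegral_mul_const _ hFm]
      _ ≤ ∫⁻ w, ∫⁻ t, G ((t : ℝ) • (w : EE n)) ∂(nu n) ∂(sg n) := by
          refine lintegral_mono fun w => ?_
          rw [← setLIntegral_const]
          refine (setLIntegral_mono' hTm fun t ht => hFG w t ht).trans ?_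
          exact setLIntegral_le_lintegral _ _
      _ = ∫⁻ q, G ((q.2 : ℝ) • (q.1 : EE n)) ∂((sg n).prod (nu n)) := by
          rw [lintegral_prod]
          exact (hGm.comp (mp_polar n hn).measurable).aemeasurable
      _ = ∫⁻ y, G y := (mp_polar n hn).lintegral_comp hGm
      _ ≤ ENNReal.ofReal (2 ^ (n + 1)) * ENNReal.ofReal (C * (ρ ^ n)⁻¹) := by
          show ∫⁻ y : EE n, ENNReal.ofReal (2 ^ (n + 1)) *
            ENNReal.ofReal (((1 + ρ * ‖u - y‖) ^ (n + 1))⁻¹) ≤ _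
          rw [lintegral_const_mul' _ _ ENNReal.ofReal_ne_top]
          gcongr
          exact hfull ρ u hρ
      _ = _ := by rw [← ENNReal.ofReal_mul (by positivity)]
  have h9 : ∫⁻ w, F w ∂(sg n) ≤ ENNReal.ofReal (2 ^ (n + 1) * (C * (ρ ^ n)⁻¹)) /
      ENNReal.ofReal (1 / ρ) := by
    rw [ENNReal.le_div_iff_mul_le]
    · exact key
    · left
      rw [Ne, ENNReal.ofReal_eq_zero, not_le]
      positivity
    · left
      exact ENNReal.ofReal_ne_top
  refine h9.trans (le_of_eq ?_)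
  rw [← ENNReal.ofReal_div_of_pos (by positivity)]
  congr 1
  obtain ⟨m, rfl⟩ : ∃ m, n = m + 1 := ⟨n - 1, by omega⟩
  rw [Nat.add_sub_cancel]
  field_simp
  ring

theorem part2 (n : ℕ) (hn : 1 ≤ n) : ∃ c : ℝ, 0 < c ∧ ∀ (ρ : ℝ) (u : EE n), 1 ≤ ρ → ‖u‖ = 1 →
    ENNReal.ofReal (c * (ρ ^ (n - 1))⁻¹) ≤ sg n {w : Sp n | ‖u - w‖ ≤ 1 / (4 * ρ)} := by
  have : Nonempty (Fin n) := ⟨⟨0, hn⟩⟩
  have : Nontrivial (EE n) := inferInstance
  set V : ℝ := (volume (Metric.ball (0 : EE n) 1)).toReal with hV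
  have hV0 : 0 < V := ENNReal.toReal_pos (Metric.measure_ball_pos _ _ one_pos).ne'
    measure_ball_lt_top.ne
  refine ⟨V / (2 ^ n * 8 ^ (n - 1)), by positivity, fun ρ u hρ hu => ?_⟩
  have hρ0 : 0 < ρ := by linarith
  set r : ℝ := 1 / (8 * ρ) with hr
  have hr0 : 0 < r := by positivity
  have hr1 : r < 1 := by
    rw [hr, div_lt_one (by positivity)]
    linarith
  set A : Set (Sp n) := {w : Sp n | ‖u - w‖ ≤ 1 / (4 * ρ)} with hA
  set T : Set (Ioi (0 : ℝ)) := {t : Ioi (0 : ℝ) | 1 - r ≤ (t : ℝ) ∧ (t : ℝ) ≤ 1 + r} with hT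
  have hball : volume (Metric.ball u r) = ENNReal.ofReal (r ^ n * V) := by
    rw [Measure.addHaar_ball _ _ hr0.le, finrank_euclideanSpace_fin, hV,
      ENNReal.ofReal_mul (by positivity), ENNReal.ofReal_toReal measure_ball_lt_top.ne]
  have hle : volume (Metric.ball u r) ≤ sg n A * ENNReal.ofReal (2 * r * 2 ^ (n - 1)) := by
    calc volume (Metric.ball u r) = ((sg n).prod (nu n))
          ((fun q : Sp n × Ioi (0 : ℝ) => (q.2 : ℝ) • (q.1 : EE n)) ⁻¹' Metric.ball u r) :=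
          ((mp_polar n hn).measure_preimage Metric.isOpen_ball.measurableSet.nullMeasurableSet).symm
      _ ≤ ((sg n).prod (nu n)) (A ×ˢ T) := by
          refine measure_mono ?_
          rintro ⟨w, t⟩ hq
          have hq' : dist ((t : ℝ) • (w : EE n)) u < r := hq
          rw [dist_eq_norm] at hq'
          have hw : ‖(w : EE n)‖ = 1 := by simp
          have ht0 : 0 < (t : ℝ) := t.2
          have h1 : |(t : ℝ) - 1| < r := by
            have h2 := abs_norm_sub_norm_le ((t : ℝ) • (w : EE n)) u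
            rw [norm_smul, hw, mul_one, hu, Real.norm_of_nonneg ht0.le] at h2
            exact lt_of_le_of_lt h2 hq'
          have h3 : ‖u - (w : EE n)‖ ≤ 1 / (4 * ρ) := by
            calc ‖u - (w : EE n)‖ = ‖((t : ℝ) - 1) • (w : EE n) - ((t : ℝ) • (w : EE n) - u)‖ := by
                  congr 1
                  rw [sub_smul, one_smul]
                  abel
              _ ≤ ‖((t : ℝ) - 1) • (w : EE n)‖ + ‖(t : ℝ) • (w : EE n) - u‖ := norm_sub_le _ _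
              _ ≤ r + r := by
                  refine add_le_add ?_ hq'.le
                  rw [norm_smul, hw, mul_one, Real.norm_eq_abs]
                  exact h1.le
              _ = 1 / (4 * ρ) := by
                  rw [hr]
                  field_simp
                  norm_num
          rw [abs_lt] at h1
          exact ⟨h3, by constructor <;> [linarith [h1.1]; linarith [h1.2]]⟩
      _ = sg n A * nu n T := Measure.prod_prod _ _
      _ ≤ _ := by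
          gcongr
          exact nu_le n r hr1
  rw [hball] at hle
  have h5 : ENNReal.ofReal (r ^ n * V) / ENNReal.ofReal (2 * r * 2 ^ (n - 1)) ≤ sg n A := by
    rw [ENNReal.div_le_iff_le_mul]
    · exact hle
    · left
      rw [Ne, ENNReal.ofReal_eq_zero, not_le]
      positivity
    · left
      exact ENNReal.ofReal_ne_top
  refine le_trans (le_of_eq ?_) h5
  rw [← ENNReal.ofReal_div_of_pos (by positivity)]
  congr 1
  obtain ⟨m, rfl⟩ : ∃ m, n = m + 1 := ⟨n - 1, by omega⟩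
  have e1 : r ^ (m + 1) = (8 ^ m)⁻¹ * (ρ ^ m)⁻¹ * r := by
    rw [pow_succ, hr, one_div, inv_pow, mul_pow, mul_inv]
  rw [Nat.add_sub_cancel, e1]
  field_simp
  ring

theorem pf_sbl : T_SBL := by
  intro n hn
  obtain ⟨C, hC, h1⟩ := part1 n hn
  obtain ⟨c, hc, h2⟩ := part2 n hn
  set K : ℝ := 2 ^ (n + 1) * C + (c * (2 ^ (n - 1))⁻¹)⁻¹ + C with hK
  have hK0 : 0 < K := by positivity
  refine ⟨K, hK0, fun ρ u hρ hu => ⟨?_, ?_, ?_⟩⟩
  · refine (h1 ρ u hρ hu).trans (ENNReal.ofReal_le_ofReal ?_)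
    refine mul_le_mul_of_nonneg_right ?_ (by positivity)
    have : 0 < 2 ^ (n + 1) * C + (c * (2 ^ (n - 1))⁻¹)⁻¹ := by positivity
    linarith
  · have h8 := h2 (2 * ρ) u (by linarith) hu
    rw [show 1 / (4 * (2 * ρ)) = 1 / (8 * ρ) by ring] at h8
    refine le_trans (ENNReal.ofReal_le_ofReal ?_) h8
    rw [mul_pow, mul_inv, ← mul_assoc]
    refine mul_le_mul_of_nonneg_right ?_ (by positivity)
    rw [inv_le_comm₀ hK0 (by positivity)]
    have : 0 < 2 ^ (n + 1) * C + C := by positivity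
    linarith
  · have hρ0 : 0 < ρ := by linarith
    have h3 : sg n {w : Sp n | ‖u - w‖ ≤ 1 / ρ} * ENNReal.ofReal ((2 ^ (n + 1))⁻¹) ≤
        ENNReal.ofReal (C * (ρ ^ (n - 1))⁻¹) := by
      refine le_trans ?_ (h1 ρ u hρ hu)
      have hm : MeasurableSet {w : Sp n | ‖u - w‖ ≤ 1 / ρ} := by
        refine measurableSet_le ?_ measurable_const
        fun_prop
      calc sg n {w : Sp n | ‖u - w‖ ≤ 1 / ρ} * ENNReal.ofReal ((2 ^ (n + 1))⁻¹)
          = ∫⁻ w in {w : Sp n | ‖u - w‖ ≤ 1 / ρ}, ENNReal.ofReal ((2 ^ (n + 1))⁻¹) ∂(sg n) := by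
            rw [setLIntegral_const, mul_comm]
        _ ≤ ∫⁻ w in {w : Sp n | ‖u - w‖ ≤ 1 / ρ},
              ENNReal.ofReal (((1 + ρ * ‖u - w‖) ^ (n + 1))⁻¹) ∂(sg n) := by
            refine setLIntegral_mono' hm fun w hw => ENNReal.ofReal_le_ofReal ?_
            have hw' : ‖u - (w : EE n)‖ ≤ 1 / ρ := hw
            have h4 : ρ * ‖u - (w : EE n)‖ ≤ 1 := by
              calc ρ * ‖u - (w : EE n)‖ ≤ ρ * (1 / ρ) := mul_le_mul_of_nonneg_left hw' hρ0.le
                _ = 1 := by field_simp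
            have h5 : 0 ≤ ρ * ‖u - (w : EE n)‖ := by positivity
            refine inv_anti₀ (by positivity) (pow_le_pow_left₀ (by positivity) ?_ _)
            linarith
        _ ≤ _ := setLIntegral_le_lintegral _ _
    have h6 : sg n {w : Sp n | ‖u - w‖ ≤ 1 / ρ} ≤
        ENNReal.ofReal (C * (ρ ^ (n - 1))⁻¹) / ENNReal.ofReal ((2 ^ (n + 1))⁻¹) := by
      rw [ENNReal.le_div_iff_mul_le]
      · exact h3
      · left
        rw [Ne, ENNReal.ofReal_eq_zero, not_le]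
        positivity
      · left
        exact ENNReal.ofReal_ne_top
    refine h6.trans ?_
    rw [← ENNReal.ofReal_div_of_pos (by positivity)]
    refine ENNReal.ofReal_le_ofReal ?_
    rw [div_inv_eq_mul, mul_right_comm]
    refine mul_le_mul_of_nonneg_right ?_ (by positivity)
    have : 0 < (c * (2 ^ (n - 1))⁻¹)⁻¹ + C := by positivity
    rw [hK, mul_comm]
    linarith

end Pool.Agent.H59.BR
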